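import Mathlib

/-! Definitions: connections and parabolic bundles on the projective line with the three points
`0, 1, ∞`, in matrix form, and their tensor constructions. -/

open Polynomial Matrix

namespace Pool.Agent.Work.MP_5e5ff1_ag.T

section bundles

variable {F : Type*} [Field F] {ι : Type*} [Fintype ι] [DecidableEq ι]

/-- The columns of `W` are a basis of a subbundle, of rank `k`, of the trivial bundle with fibre
`F^ι` on the affine line: `W` has a left inverse with polynomial entries. -/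
def IsSub {k : ℕ} (W : Matrix ι (Fin k) F[X]) : Prop :=
  ∃ V : Matrix (Fin k) ι F[X], V * W = 1

/-- The order at the point `a` of the wedge product of the columns of `W`. The basis given by the
columns of `g⁻¹` is adapted to the parabolic structure at `a`, with weights `v`. -/
noncomputable def wedgeOrd (g : Matrix ι ι F) (v : ι → ℝ) (a : F) {k : ℕ}
    (W : Matrix ι (Fin k) F[X]) : ℝ :=
  ⨅ I : {I : Fin k → ι // ((g.map C * W).submatrix I id).det ≠ 0},
    (∑ j, v (I.1 j) + (((g.map C * W).submatrix I.1 id).det.rootMultiplicity a : ℝ))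

/-- The order at infinity of the wedge product of the columns of `W`. The standard basis is
adapted to the parabolic structure at `∞`, with weights `v`. -/
noncomputable def wedgeOrdInf (v : ι → ℝ) {k : ℕ} (W : Matrix ι (Fin k) F[X]) : ℝ :=
  ⨅ I : {I : Fin k → ι // (W.submatrix I id).det ≠ 0},
    (∑ j, v (I.1 j) - ((W.submatrix I.1 id).det.natDegree : ℝ))

/-- The parabolic degree of the span of the columns of `W`, for the parabolic bundle which is the
trivial bundle on the affine line, with adapted bases `g₀⁻¹`, `g₁⁻¹` and `1` at `0`, `1`, `∞` and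
weights `w (0, ·)`, `w (1, ·)`, `w (2, ·)`. -/
noncomputable def parDegree (g₀ g₁ : Matrix ι ι F) (w : Fin 3 × ι → ℝ) {k : ℕ}
    (W : Matrix ι (Fin k) F[X]) : ℝ :=
  wedgeOrd g₀ (fun j => w (0, j)) 0 W + wedgeOrd g₁ (fun j => w (1, j)) 1 W
    + wedgeOrdInf (fun j => w (2, j)) W

/-- The parabolic bundle is semistable of degree zero. -/
def Semistable (g₀ g₁ : Matrix ι ι F) (w : Fin 3 × ι → ℝ) : Prop :=
  ∑ i, w i = 0 ∧
    ∀ (k : ℕ) (W : Matrix ι (Fin k) F[X]), IsSub W → parDegree g₀ g₁ w W ≤ 0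

/-- The parabolic bundle is stable of degree zero. -/
def Stable (g₀ g₁ : Matrix ι ι F) (w : Fin 3 × ι → ℝ) : Prop :=
  ∑ i, w i = 0 ∧
    ∀ (k : ℕ), 0 < k → k < Fintype.card ι →
      ∀ (W : Matrix ι (Fin k) F[X]), IsSub W → parDegree g₀ g₁ w W < 0

/-- The fibres at `y` of the subbundles of parabolic degree zero. -/
def parFibres (g₀ g₁ : Matrix ι ι F) (w : Fin 3 × ι → ℝ) (y : F) : Set (Submodule F (ι → F)) :=
  {U | ∃ (k : ℕ) (W : Matrix ι (Fin k) F[X]), IsSub W ∧ parDegree g₀ g₁ w W = 0 ∧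
    U = LinearMap.range (W.map (eval y)).mulVecLin}

/-- The span of the columns of `Z` is stable under the connection
`d - (b dt/t + c dt/(t-1))`. -/
def ConnStable (b c : Matrix ι ι F) {k : ℕ} (Z : Matrix ι (Fin k) F[X]) : Prop :=
  ∃ N : Matrix (Fin k) (Fin k) F[X], (X * (X - 1) : F[X]) • Z.map derivative
    - ((X - 1 : F[X]) • b.map C + (X : F[X]) • c.map C) * Z = Z * N

/-- The system `f' = (b/t + c/(t-1)) f` is irreducible. -/
def IrreducibleSystem (b c : Matrix ι ι F) : Prop :=
  ∀ k : ℕ, 0 < k → k < Fintype.card ι → ∀ Z : Matrix ι (Fin k) F[X], IsSub Z →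
    ¬ ConnStable b c Z

/-- The fibres at `x` of the subbundles which are stable under the connection. -/
def connFibres (b c : Matrix ι ι F) (x : F) : Set (Submodule F (ι → F)) :=
  {U | ∃ (k : ℕ) (Z : Matrix ι (Fin k) F[X]), IsSub Z ∧ ConnStable b c Z ∧
    U = LinearMap.range (Z.map (eval x)).mulVecLin}

end bundles

section tensors

variable {R : Type*} [CommRing R] {κ : Type*} [Fintype κ] [DecidableEq κ]

/-- The tensor product of `a` matrices. -/
def tensFam {a : ℕ} (A : Fin a → Matrix κ κ R) : Matrix (Fin a → κ) (Fin a → κ) R :=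
  Matrix.of fun x y => ∏ l, A l (x l) (y l)

/-- The action of `g` on the tensor power `(R ⊕ R^r)^{⊗ a}`. -/
def tens {r : ℕ} (a : ℕ) (g : Matrix (Fin r) (Fin r) R) :
    Matrix (Fin a → Unit ⊕ Fin r) (Fin a → Unit ⊕ Fin r) R :=
  tensFam fun _ => fromBlocks 1 0 0 g

/-- The infinitesimal action of `b` on the tensor power `(R ⊕ R^r)^{⊗ a}`. -/
def tensAdd {r : ℕ} (a : ℕ) (b : Matrix (Fin r) (Fin r) R) :
    Matrix (Fin a → Unit ⊕ Fin r) (Fin a → Unit ⊕ Fin r) R :=
  ∑ j, tensFam (Function.update (fun _ => 1) j (fromBlocks 0 0 0 b))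

/-- The weights of the tensor power. -/
noncomputable def tensWeight {r : ℕ} (a : ℕ) (w : Fin 3 × Fin r → ℝ)
    (i : Fin 3 × (Fin a → Unit ⊕ Fin r)) : ℝ :=
  ∑ l, Sum.elim (fun _ => 0) (fun j => w (i.1, j)) (i.2 l)

end tensors

end Pool.Agent.Work.MP_5e5ff1_ag.T
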