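import Mathlib
import Pool.Agent.Work.MP_5e5ff1_ag.T.Defs

/-! Minors of rectangular matrices. -/

open Polynomial Matrix

set_option linter.unusedSectionVars false

namespace Pool.Agent.Work.MP_5e5ff1_ag.T

section minors

variable {ι : Type*} [Fintype ι] [DecidableEq ι] {κ : Type*}

lemma det_mul_rect {R : Type*} [CommRing R] {k : ℕ} (A : Matrix (Fin k) ι R)
    (B : Matrix ι (Fin k) R) :
    (A * B).det = ∑ f : Fin k → ι, (∏ i, A i (f i)) * (B.submatrix f id).det := by
  have h1 : (A * B).det = (detRowAlternating : (Fin k → R) [⋀^Fin k]→ₗ[R] R).toMultilinearMap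
      (fun i => ∑ l, A i l • B l) := by
    have h2 : (A * B) = (fun i => ∑ l, A i l • B l : Matrix (Fin k) (Fin k) R) := by
      ext1 i j
      rw [mul_apply, Finset.sum_apply]
      rfl
    rw [h2]
    rfl
  rw [h1, MultilinearMap.map_sum]
  apply Finset.sum_congr rfl
  intro f _
  rw [MultilinearMap.map_smul_univ]
  rfl

omit [DecidableEq ι] in
lemma submatrix_mul_left {R : Type*} [CommRing R] {k : ℕ} (M : Matrix κ ι R)
    (W : Matrix ι (Fin k) R) (I : Fin k → κ) :
    (M * W).submatrix I id = M.submatrix I id * W := by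
  ext1 i j
  simp [mul_apply]

lemma minor_mul {R : Type*} [CommRing R] {k : ℕ} (M : Matrix κ ι R)
    (W : Matrix ι (Fin k) R) (I : Fin k → κ) :
    ((M * W).submatrix I id).det
      = ∑ f : Fin k → ι, (∏ i, M (I i) (f i)) * (W.submatrix f id).det := by
  rw [submatrix_mul_left, det_mul_rect]
  rfl

lemma minor_diagonal_mul {R : Type*} [CommRing R] {k : ℕ} (d : ι → R)
    (W : Matrix ι (Fin k) R) (I : Fin k → ι) :
    ((diagonal d * W).submatrix I id).det = (∏ i, d (I i)) * (W.submatrix I id).det := by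
  have h1 : (diagonal d * W).submatrix I id = diagonal (fun i => d (I i)) * W.submatrix I id := by
    ext1 i j
    simp [diagonal_mul]
  rw [h1, det_mul, det_diagonal]

/-- some maximal minor does not vanish -/
def FullRank {R : Type*} [CommRing R] {k : ℕ} (W : Matrix ι (Fin k) R) : Prop :=
  ∃ I : Fin k → ι, (W.submatrix I id).det ≠ 0

lemma fullRank_of_mul {R : Type*} [CommRing R] {k : ℕ} {M : Matrix κ ι R}
    {W : Matrix ι (Fin k) R} (h : ∃ I : Fin k → κ, ((M * W).submatrix I id).det ≠ 0) :
    FullRank W := by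
  obtain ⟨I, hI⟩ := h
  by_contra hcon
  apply hI
  rw [minor_mul]
  apply Finset.sum_eq_zero
  intro f _
  have : (W.submatrix f id).det = 0 := by
    by_contra h
    exact hcon ⟨f, h⟩
  rw [this, mul_zero]

lemma fullRank_mul {R : Type*} [CommRing R] [IsDomain R] {k : ℕ} {M : Matrix ι ι R}
    (hM : M.det ≠ 0) {W : Matrix ι (Fin k) R} (h : FullRank W) : FullRank (M * W) := by
  apply fullRank_of_mul (M := adjugate M)
  rw [← Matrix.mul_assoc, adjugate_mul, Matrix.smul_mul, Matrix.one_mul]
  obtain ⟨I, hI⟩ := h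
  refine ⟨I, ?_⟩
  have h1 : (M.det • W).submatrix I id = M.det • W.submatrix I id := rfl
  rw [h1, det_smul]
  exact mul_ne_zero (pow_ne_zero _ hM) hI

lemma fullRank_of_leftInv {R : Type*} [CommRing R] [Nontrivial R] {k : ℕ}
    {W : Matrix ι (Fin k) R} {V : Matrix (Fin k) ι R} (h : V * W = 1) : FullRank W := by
  apply fullRank_of_mul (M := V)
  refine ⟨id, ?_⟩
  rw [h]
  simp

lemma fullRank_mul_right {R : Type*} [CommRing R] [IsDomain R] {k : ℕ} {W : Matrix ι (Fin k) R}
    {N : Matrix (Fin k) (Fin k) R} (h : FullRank W) (hN : N.det ≠ 0) : FullRank (W * N) := by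
  obtain ⟨I, hI⟩ := h
  refine ⟨I, ?_⟩
  have h1 : (W * N).submatrix I id = W.submatrix I id * N := by
    ext1 i j
    simp [mul_apply]
  rw [h1, det_mul]
  exact mul_ne_zero hI hN

omit [Fintype ι] in
lemma mul_adjugate_minor {R : Type*} [CommRing R] {k : ℕ} (Y : Matrix ι (Fin k) R)
    (I : Fin k → ι) (i : ι) (j : Fin k) :
    (Y * adjugate (Y.submatrix I id)) i j = (Y.submatrix (Function.update I j i) id).det := by
  have h1 : Y.submatrix (Function.update I j i) id = (Y.submatrix I id).updateRow j (Y i) := by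
    ext1 a b
    by_cases ha : a = j
    · subst ha
      simp
    · simp [ha]
  rw [h1, ← Matrix.cramer_transpose_apply, Matrix.cramer_eq_adjugate_mulVec,
    ← Matrix.adjugate_transpose, mul_apply]
  simp only [mulVec, dotProduct, transpose_apply]
  apply Finset.sum_congr rfl
  intro l _
  ring

variable {F : Type*} [Field F]

lemma det_map_C (g : Matrix ι ι F) : (g.map (C : F → F[X])).det = C g.det := by
  have := RingHom.map_det (C : F →+* F[X]) g
  simpa using this.symm

lemma fullRank_map_C_mul {k : ℕ} {g : Matrix ι ι F} (hg : g.det ≠ 0)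
    {W : Matrix ι (Fin k) F[X]} (h : FullRank W) : FullRank (g.map C * W) :=
  fullRank_mul (by rw [det_map_C]; exact C_ne_zero.mpr hg) h

lemma smul_matrix_cancel {m n : Type*} {R : Type*} [CommRing R] [IsDomain R] {q : R} (hq : q ≠ 0)
    {M N : Matrix m n R} (h : q • M = q • N) : M = N := by
  ext1 i j
  have h1 := congrFun (congrFun h i) j
  simp only [Matrix.smul_apply, smul_eq_mul] at h1
  exact mul_left_cancel₀ hq h1

/-- over a field, vanishing of all maximal minors gives a relation between the columns -/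
lemma exists_relation {k : ℕ} {A : Matrix ι (Fin k) F} (h : ¬ FullRank A) :
    ∃ c : Fin k → F, c ≠ 0 ∧ A *ᵥ c = 0 := by
  by_contra hcon
  push Not at hcon
  apply h
  have hker : LinearMap.ker A.mulVecLin = ⊥ := by
    rw [LinearMap.ker_eq_bot']
    intro v hv
    by_contra hv0
    exact hcon v hv0 hv
  obtain ⟨g, hg⟩ := A.mulVecLin.exists_leftInverse_of_injective hker
  apply fullRank_of_leftInv (V := LinearMap.toMatrix' g)
  apply Matrix.toLin'.injective
  rw [Matrix.toLin'_mul, Matrix.toLin'_toMatrix', Matrix.toLin'_one]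
  exact hg

end minors

end Pool.Agent.Work.MP_5e5ff1_ag.T
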