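import Mathlib
import Pool.Agent.Work.MP_5e5ff1_ag.T.Minors

/-! The parabolic degree as a minimum. -/

open Polynomial Matrix

set_option linter.unusedSectionVars false

namespace Pool.Agent.Work.MP_5e5ff1_ag.T

variable {F : Type*} [Field F] {ι : Type*} [Fintype ι] [DecidableEq ι]

/-- the integral part of the parabolic degree -/
noncomputable def ordPart (g₀ g₁ : Matrix ι ι F) {k : ℕ}
    (W : Matrix ι (Fin k) F[X]) (I : Fin 3 → Fin k → ι) : ℤ :=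
  (((g₀.map C * W).submatrix (I 0) id).det.rootMultiplicity 0 : ℤ)
  + (((g₁.map C * W).submatrix (I 1) id).det.rootMultiplicity 1 : ℤ)
  - ((W.submatrix (I 2) id).det.natDegree : ℤ)

/-- the value of the parabolic degree at three tuples of indices -/
noncomputable def parVal (g₀ g₁ : Matrix ι ι F) (w : Fin 3 × ι → ℝ) {k : ℕ}
    (W : Matrix ι (Fin k) F[X]) (I : Fin 3 → Fin k → ι) : ℝ :=
  ∑ x : Fin 3, ∑ j, w (x, I x j) + (ordPart g₀ g₁ W I : ℝ)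

def ParNonzero (g₀ g₁ : Matrix ι ι F) {k : ℕ}
    (W : Matrix ι (Fin k) F[X]) (I : Fin 3 → Fin k → ι) : Prop :=
  ((g₀.map C * W).submatrix (I 0) id).det ≠ 0 ∧ ((g₁.map C * W).submatrix (I 1) id).det ≠ 0 ∧
    (W.submatrix (I 2) id).det ≠ 0

lemma parVal_eq (g₀ g₁ : Matrix ι ι F) (w : Fin 3 × ι → ℝ) {k : ℕ}
    (W : Matrix ι (Fin k) F[X]) (I : Fin 3 → Fin k → ι) :
    parVal g₀ g₁ w W I =
      (∑ j, w (0, I 0 j) + (((g₀.map C * W).submatrix (I 0) id).det.rootMultiplicity 0 : ℝ))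
      + (∑ j, w (1, I 1 j) + (((g₁.map C * W).submatrix (I 1) id).det.rootMultiplicity 1 : ℝ))
      + (∑ j, w (2, I 2 j) - ((W.submatrix (I 2) id).det.natDegree : ℝ)) := by
  unfold parVal ordPart
  rw [Fin.sum_univ_three]
  push_cast
  ring

lemma exists_parNonzero {g₀ g₁ : Matrix ι ι F} (h₀ : g₀.det ≠ 0) (h₁ : g₁.det ≠ 0)
    {k : ℕ} {W : Matrix ι (Fin k) F[X]} (hW : FullRank W) :
    ∃ I : Fin 3 → Fin k → ι, ParNonzero g₀ g₁ W I := by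
  obtain ⟨J₀, hJ₀⟩ := fullRank_map_C_mul h₀ hW
  obtain ⟨J₁, hJ₁⟩ := fullRank_map_C_mul h₁ hW
  obtain ⟨J₂, hJ₂⟩ := hW
  exact ⟨![J₀, J₁, J₂], hJ₀, hJ₁, hJ₂⟩

lemma parDegree_attained {g₀ g₁ : Matrix ι ι F} (h₀ : g₀.det ≠ 0) (h₁ : g₁.det ≠ 0)
    (w : Fin 3 × ι → ℝ) {k : ℕ} {W : Matrix ι (Fin k) F[X]} (hW : FullRank W) :
    ∃ I : Fin 3 → Fin k → ι, ParNonzero g₀ g₁ W I ∧ parDegree g₀ g₁ w W = parVal g₀ g₁ w W I := by
  obtain ⟨J₀, hJ₀⟩ := fullRank_map_C_mul h₀ hW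
  obtain ⟨J₁, hJ₁⟩ := fullRank_map_C_mul h₁ hW
  obtain ⟨J₂, hJ₂⟩ := hW
  have : Nonempty {I : Fin k → ι // ((g₀.map C * W).submatrix I id).det ≠ 0} := ⟨⟨J₀, hJ₀⟩⟩
  have : Nonempty {I : Fin k → ι // ((g₁.map C * W).submatrix I id).det ≠ 0} := ⟨⟨J₁, hJ₁⟩⟩
  have : Nonempty {I : Fin k → ι // (W.submatrix I id).det ≠ 0} := ⟨⟨J₂, hJ₂⟩⟩
  obtain ⟨I₀, hI₀⟩ := exists_eq_ciInf_of_finite
    (f := fun I : {I : Fin k → ι // ((g₀.map C * W).submatrix I id).det ≠ 0} =>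
      (∑ j, w (0, I.1 j) + (((g₀.map C * W).submatrix I.1 id).det.rootMultiplicity 0 : ℝ)))
  obtain ⟨I₁, hI₁⟩ := exists_eq_ciInf_of_finite
    (f := fun I : {I : Fin k → ι // ((g₁.map C * W).submatrix I id).det ≠ 0} =>
      (∑ j, w (1, I.1 j) + (((g₁.map C * W).submatrix I.1 id).det.rootMultiplicity 1 : ℝ)))
  obtain ⟨I₂, hI₂⟩ := exists_eq_ciInf_of_finite
    (f := fun I : {I : Fin k → ι // (W.submatrix I id).det ≠ 0} =>
      (∑ j, w (2, I.1 j) - ((W.submatrix I.1 id).det.natDegree : ℝ)))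
  refine ⟨![I₀.1, I₁.1, I₂.1], ⟨I₀.2, I₁.2, I₂.2⟩, ?_⟩
  rw [parVal_eq]
  unfold parDegree wedgeOrd wedgeOrdInf
  rw [← hI₀, ← hI₁, ← hI₂]
  rfl

lemma parDegree_le {g₀ g₁ : Matrix ι ι F}
    (w : Fin 3 × ι → ℝ) {k : ℕ} {W : Matrix ι (Fin k) F[X]}
    {I : Fin 3 → Fin k → ι} (hI : ParNonzero g₀ g₁ W I) :
    parDegree g₀ g₁ w W ≤ parVal g₀ g₁ w W I := by
  rw [parVal_eq]
  unfold parDegree wedgeOrd wedgeOrdInf
  refine add_le_add (add_le_add ?_ ?_) ?_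
  · exact ciInf_le (Set.finite_range _).bddBelow
      (⟨I 0, hI.1⟩ : {I : Fin k → ι // ((g₀.map C * W).submatrix I id).det ≠ 0})
  · exact ciInf_le (Set.finite_range _).bddBelow
      (⟨I 1, hI.2.1⟩ : {I : Fin k → ι // ((g₁.map C * W).submatrix I id).det ≠ 0})
  · exact ciInf_le (Set.finite_range _).bddBelow
      (⟨I 2, hI.2.2⟩ : {I : Fin k → ι // (W.submatrix I id).det ≠ 0})

/-- an invertible change of basis of the subbundle -/
lemma minor_mul_right {k : ℕ} {κ : Type*} (A : Matrix κ (Fin k) F[X]) (E : Matrix (Fin k) (Fin k) F[X])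
    (I : Fin k → κ) : ((A * E).submatrix I id).det = (A.submatrix I id).det * E.det := by
  have h1 : (A * E).submatrix I id = A.submatrix I id * E := by
    ext1 i j
    simp [mul_apply]
  rw [h1, det_mul]

lemma parNonzero_mul {g₀ g₁ : Matrix ι ι F} {k : ℕ} {W : Matrix ι (Fin k) F[X]}
    {E : Matrix (Fin k) (Fin k) F[X]} {e : F} (he : e ≠ 0) (hE : E.det = C e)
    {I : Fin 3 → Fin k → ι} : ParNonzero g₀ g₁ (W * E) I ↔ ParNonzero g₀ g₁ W I := by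
  unfold ParNonzero
  simp only [← Matrix.mul_assoc, minor_mul_right, hE, mul_ne_zero_iff, C_ne_zero]
  tauto

lemma ordPart_mul {g₀ g₁ : Matrix ι ι F} {k : ℕ} {W : Matrix ι (Fin k) F[X]}
    {E : Matrix (Fin k) (Fin k) F[X]} {e : F} (he : e ≠ 0) (hE : E.det = C e)
    {I : Fin 3 → Fin k → ι} (hI : ParNonzero g₀ g₁ W I) :
    ordPart g₀ g₁ (W * E) I = ordPart g₀ g₁ W I := by
  have key : ∀ (q : F[X]) (a : F), q ≠ 0 →
      (q * C e).rootMultiplicity a = q.rootMultiplicity a := by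
    intro q a hq
    rw [rootMultiplicity_mul (mul_ne_zero hq (C_ne_zero.mpr he)), rootMultiplicity_C, add_zero]
  unfold ordPart
  simp only [← Matrix.mul_assoc, minor_mul_right, hE]
  rw [key _ _ hI.1, key _ _ hI.2.1, natDegree_mul_C he]

end Pool.Agent.Work.MP_5e5ff1_ag.T
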