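import Mathlib
import Pool.Agent.Work.MP_5e5ff1_ag.Bd.B03

/-! Sub-systems of small degree from Plücker coordinates of small degree, and Cartier descent of
sub-systems. -/

open Polynomial Matrix

set_option linter.unusedSectionVars false

namespace Pool.Agent.Work.MP_5e5ff1_ag.T

section general

variable {R : Type*} [CommRing R] {ι : Type*} [Fintype ι] [DecidableEq ι]

/-- the matrix of the system -/
noncomputable def Lm (b c : Matrix ι ι R) : Matrix ι ι R[X] :=
  (X - 1 : R[X]) • b.map C + (X : R[X]) • c.map C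

/-- the operator of the system -/
noncomputable def nab (L : Matrix ι ι R[X]) {k : ℕ}
    (Z : Matrix ι (Fin k) R[X]) : Matrix ι (Fin k) R[X] :=
  (X * (X - 1) : R[X]) • Z.map derivative - L * Z

lemma nab_map {S : Type*} [CommRing S] (f : R →+* S)
    (L : Matrix ι ι R[X]) {k : ℕ} (Z : Matrix ι (Fin k) R[X]) :
    (nab L Z).map (Polynomial.map f)
      = nab (L.map (Polynomial.map f)) (Z.map (Polynomial.map f)) := by
  ext1 i j
  simp only [nab, map_apply, Matrix.sub_apply, Matrix.smul_apply, smul_eq_mul, mul_apply,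
    Polynomial.map_sub, Polynomial.map_mul, Polynomial.map_sum, derivative_map, Polynomial.map_X,
    Polynomial.map_one]

lemma derivative_matrix_mul {m n o : Type*} [Fintype n] (M : Matrix m n R[X])
    (N : Matrix n o R[X]) :
    (M * N).map derivative = M.map derivative * N + M * N.map derivative := by
  ext1 i j
  simp only [map_apply, mul_apply, Matrix.add_apply, derivative_sum, derivative_mul,
    Finset.sum_add_distrib]

lemma derivative_matrix_smul {m n : Type*} (q : R[X]) (M : Matrix m n R[X]) :
    (q • M).map derivative = derivative q • M + q • M.map derivative := by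
  ext1 i j
  simp only [map_apply, Matrix.add_apply, Matrix.smul_apply, smul_eq_mul, derivative_mul]

/-- the operator on a product -/
lemma nab_mul (L : Matrix ι ι R[X]) {k : ℕ} (Z : Matrix ι (Fin k) R[X])
    (N : Matrix (Fin k) (Fin k) R[X]) :
    nab L (Z * N) = nab L Z * N + Z * ((X * (X - 1) : R[X]) • N.map derivative) := by
  rw [nab, nab, derivative_matrix_mul, smul_add, Matrix.sub_mul, Matrix.smul_mul, Matrix.mul_smul,
    Matrix.mul_assoc]
  abel

lemma connStable_iff {F : Type*} [Field F] {b c : Matrix ι ι F} {k : ℕ}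
    {Z : Matrix ι (Fin k) F[X]} : ConnStable b c Z ↔ ∃ N, nab (Lm b c) Z = Z * N := Iff.rfl

end general

variable {F : Type*} [Field F] {ι : Type*} [Fintype ι] [DecidableEq ι]

lemma mul_cancel_right {m : Type*} {k : ℕ} {A B : Matrix m (Fin k) F[X]}
    {N : Matrix (Fin k) (Fin k) F[X]} (hN : N.det ≠ 0) (h : A * N = B * N) : A = B := by
  apply smul_matrix_cancel hN
  have h1 := congrArg (fun M => M * adjugate N) h
  simp only [Matrix.mul_assoc, mul_adjugate, Matrix.mul_smul, Matrix.mul_one] at h1
  exact h1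

theorem subsystem {L : Matrix ι ι F[X]} {k : ℕ}
    {Y : Matrix ι (Fin k) F[X]} (hY : (X * (X - 1) : F[X]) • Y.map derivative = L * Y)
    {θ : F[X]} (hθ : θ ≠ 0)
    (hdvd : ∀ J : Fin k → ι, θ ∣ (Y.submatrix J id).det) {D : ℕ}
    (hD : ∀ J : Fin k → ι, (Y.submatrix J id).det.natDegree ≤ D) (hY0 : FullRank Y) {c : ℕ}
    (hc : D ≤ θ.natDegree + c) :
    ∃ (Z : Matrix ι (Fin k) F[X]) (I : Fin k → ι) (η : F[X]) (M : Matrix (Fin k) (Fin k) F[X]),
      η ≠ 0 ∧ η.natDegree ≤ c ∧ Z.submatrix I id = η • (1 : Matrix (Fin k) (Fin k) F[X]) ∧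
      (∀ i j, (Z i j).natDegree ≤ c) ∧ η • nab L Z = Z * (nab L Z).submatrix I id ∧
      η • Y = Z * M := by
  classical
  obtain ⟨I, hI⟩ := hY0
  choose q hq using hdvd
  have hdeg : ∀ J, (q J).natDegree ≤ c := by
    intro J
    by_cases h0 : q J = 0
    · rw [h0]; simp
    · have h1 := hD J
      rw [hq J, natDegree_mul hθ h0] at h1
      omega
  set w : F[X] := X * (X - 1) with hw
  set A := adjugate (Y.submatrix I id) with hA
  set Z : Matrix ι (Fin k) F[X] := Matrix.of fun i j => q (Function.update I j i) with hZ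
  have hZA : θ • Z = Y * A := by
    ext1 i j
    rw [hA, mul_adjugate_minor, hq]
    rfl
  set η := q I with hη
  have hdetY : (Y.submatrix I id).det = θ * η := hq I
  have hη0 : η ≠ 0 := by
    intro h
    apply hI
    rw [hdetY, h, mul_zero]
  have hZI : Z.submatrix I id = η • (1 : Matrix (Fin k) (Fin k) F[X]) := by
    apply smul_matrix_cancel hθ
    have h1 : θ • Z.submatrix I id = (θ • Z).submatrix I id := rfl
    have h2 : (Y * A).submatrix I id = Y.submatrix I id * A := submatrix_mul_left _ _ _
    rw [h1, hZA, h2, hA, mul_adjugate, hdetY, smul_smul]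
  have h3 : η • Y = Z * Y.submatrix I id := by
    apply smul_matrix_cancel hθ
    rw [← Matrix.smul_mul, hZA, Matrix.mul_assoc, hA, adjugate_mul, hdetY, Matrix.mul_smul,
      Matrix.mul_one, smul_smul]
  refine ⟨Z, I, η, Y.submatrix I id, hη0, hdeg I, hZI, fun i j => hdeg _, ?_, h3⟩
  set T := nab L Z with hT
  -- derivative of the defining relation
  have h1 : derivative θ • Z + θ • Z.map derivative = Y.map derivative * A + Y * A.map derivative := by
    rw [← derivative_matrix_mul, ← hZA, derivative_matrix_smul]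
  have h2 : θ • T = w • (Y * A.map derivative) - (w * derivative θ) • Z := by
    have h3 := congrArg (fun M => w • M) h1
    simp only [smul_add, smul_smul] at h3
    rw [← Matrix.smul_mul w (Y.map derivative) A, hY, Matrix.mul_assoc, ← hZA, Matrix.mul_smul] at h3
    rw [hT, nab, smul_sub, smul_smul, mul_comm θ _]
    have h4 : (w * θ) • Z.map derivative = θ • (L * Z) + w • (Y * A.map derivative)
        - (w * derivative θ) • Z := by
      rw [← h3]; abel
    rw [h4]; abel
  set N := w • (Y.submatrix I id * A.map derivative)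
    - (w * derivative θ * η) • (1 : Matrix (Fin k) (Fin k) F[X]) with hN
  have h4 : (η * θ) • T = Z * N := by
    rw [← smul_smul, h2, hN, smul_sub, Matrix.mul_sub, Matrix.mul_smul, Matrix.mul_smul,
      Matrix.mul_one, ← Matrix.mul_assoc, ← h3, Matrix.smul_mul, smul_comm η w, smul_smul η]
    congr 2
    ring
  have h5 : θ • T.submatrix I id = N := by
    apply smul_matrix_cancel hη0
    have h6 : η • θ • T.submatrix I id = ((η * θ) • T).submatrix I id := by
      rw [smul_smul]; rfl
    have h7 : (Z * N).submatrix I id = Z.submatrix I id * N := submatrix_mul_left _ _ _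
    rw [h6, h4, h7, hZI, Matrix.smul_mul, Matrix.one_mul]
  apply smul_matrix_cancel hθ
  rw [smul_smul, mul_comm θ η, h4, ← h5, Matrix.mul_smul]

/-- Cartier descent of a sub-system -/
theorem descent {p : ℕ} [hp : Fact p.Prime] [CharP F p] {L G : Matrix ι ι F[X]}
    (hG : (X * (X - 1) : F[X]) • G.map derivative = L * G) (hdet : G.det ≠ 0) {k : ℕ}
    {Z : Matrix ι (Fin k) F[X]} (hZ : FullRank Z) {N : Matrix (Fin k) (Fin k) F[X]}
    (hN : nab L Z = Z * N) :
    ∃ (W : Matrix ι (Fin k) F[X]) (K : Matrix (Fin k) (Fin k) F[X]), FullRank W ∧ K.det ≠ 0 ∧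
      G * W.map (expand F p) = Z * K := by
  classical
  set w : F[X] := X * (X - 1) with hw
  have hw0 : w ≠ 0 := by
    rw [hw]
    exact mul_ne_zero X_ne_zero (by rw [← C_1]; exact X_sub_C_ne_zero 1)
  set δ := G.det with hδ
  set M := adjugate G * Z with hM
  have hGM : G * M = δ • Z := by
    rw [hM, ← Matrix.mul_assoc, mul_adjugate, Matrix.smul_mul, Matrix.one_mul]
  have hMfull : FullRank M := by
    apply fullRank_of_mul (M := G)
    rw [hGM]
    obtain ⟨I, hI⟩ := hZ
    refine ⟨I, ?_⟩
    have h1 : (δ • Z).submatrix I id = δ • Z.submatrix I id := rfl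
    rw [h1, det_smul]
    exact mul_ne_zero (pow_ne_zero _ hdet) hI
  -- the derivative of `M`
  have h1 : (w * δ) • M.map derivative
      = M * ((w * derivative δ) • (1 : Matrix (Fin k) (Fin k) F[X]) + δ • N) := by
    have h2 := congrArg (fun A => w • A.map derivative) hGM
    simp only [derivative_matrix_mul, derivative_matrix_smul, smul_add] at h2
    rw [← Matrix.smul_mul, hG, Matrix.mul_assoc, hGM, smul_smul, smul_smul] at h2
    have h3 : w • Z.map derivative = L * Z + Z * N := by
      rw [← hN, nab]; abel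
    have h4 : w • (G * M.map derivative) = (w * derivative δ) • Z + δ • (Z * N) := by
      have h5 : (w * δ) • Z.map derivative = δ • (L * Z) + δ • (Z * N) := by
        rw [mul_comm, ← smul_smul, h3, smul_add]
      rw [h5, Matrix.mul_smul] at h2
      have h6 : w • (G * M.map derivative) = (δ • (L * Z) + w • (G * M.map derivative))
          - δ • (L * Z) := by abel
      rw [h6, h2]; abel
    have h5 := congrArg (fun A => adjugate G * A) h4
    simp only [Matrix.mul_add, Matrix.mul_smul] at h5
    rw [← Matrix.mul_assoc, adjugate_mul, Matrix.smul_mul, Matrix.one_mul, smul_smul,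
      ← Matrix.mul_assoc, ← hM] at h5
    rw [h5, Matrix.mul_add, Matrix.mul_smul, Matrix.mul_smul, Matrix.mul_one]
  obtain ⟨I, hI⟩ := hMfull
  set Δ := (M.submatrix I id).det with hΔ
  set A := adjugate (M.submatrix I id) with hA
  set R₀ := M * A with hR₀
  have hRI : R₀.submatrix I id = Δ • (1 : Matrix (Fin k) (Fin k) F[X]) := by
    rw [hR₀, submatrix_mul_left, hA, mul_adjugate]
  have hRM : R₀ * M.submatrix I id = Δ • M := by
    rw [hR₀, Matrix.mul_assoc, hA, adjugate_mul, Matrix.mul_smul, Matrix.mul_one]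
  set q := w * δ with hq
  have hq0 : q ≠ 0 := mul_ne_zero hw0 hdet
  set N₂ := (w * derivative δ) • (1 : Matrix (Fin k) (Fin k) F[X]) + δ • N with hN₂
  set Q := M.submatrix I id * (N₂ * A + q • A.map derivative) with hQ
  have h2 : (Δ * q) • R₀.map derivative = R₀ * Q := by
    rw [hQ, ← Matrix.mul_assoc, hRM, Matrix.smul_mul, Matrix.mul_add, Matrix.mul_smul,
      ← Matrix.mul_assoc, ← h1, hR₀, derivative_matrix_mul, Matrix.smul_mul, ← smul_add, smul_smul]
  have h3 : Q = (q * derivative Δ) • (1 : Matrix (Fin k) (Fin k) F[X]) := by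
    have h4 := congrArg (fun A => A.submatrix I id) h2
    simp only [submatrix_mul_left] at h4
    rw [hRI, Matrix.smul_mul, Matrix.one_mul] at h4
    have h5 : ((Δ * q) • R₀.map derivative).submatrix I id
        = (Δ * q) • (R₀.submatrix I id).map derivative := rfl
    have h6 : (Δ • (1 : Matrix (Fin k) (Fin k) F[X])).map derivative
        = derivative Δ • (1 : Matrix (Fin k) (Fin k) F[X]) := by
      rw [derivative_matrix_smul]
      have : (1 : Matrix (Fin k) (Fin k) F[X]).map derivative = 0 := by
        ext1 i j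
        rw [map_apply, Matrix.one_apply]
        split_ifs <;> simp
      rw [this, smul_zero, add_zero]
    rw [h5, hRI, h6, smul_smul, mul_assoc, ← smul_smul] at h4
    exact (smul_matrix_cancel hI h4).symm
  have h4 : Δ • R₀.map derivative = derivative Δ • R₀ := by
    have h5 : q • (Δ • R₀.map derivative) = q • (derivative Δ • R₀) := by
      rw [smul_smul, smul_smul, mul_comm q Δ, h2, h3, Matrix.mul_smul, Matrix.mul_one]
    exact smul_matrix_cancel hq0 h5
  have hder : ∀ i j, derivative ((Δ ^ (p - 1) • R₀) i j) = 0 := by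
    intro i j
    have h5 := congrFun (congrFun h4 i) j
    simp only [Matrix.smul_apply, map_apply, smul_eq_mul] at h5
    rw [Matrix.smul_apply, smul_eq_mul, derivative_mul, derivative_pow]
    have hp1 : p - 1 = (p - 2) + 1 := by have := hp.out.two_le; omega
    have hcast : (((p - 1 : ℕ) : F)) = -1 := by
      have := hp.out.one_le
      push_cast [Nat.cast_sub this]
      simp
    rw [hcast]
    have h6 : Δ ^ (p - 1) = Δ ^ (p - 2) * Δ := by rw [hp1, pow_succ]
    have h7 : Δ ^ (p - 1 - 1) = Δ ^ (p - 2) := by congr 1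
    rw [h7, h6, C_neg, C_1]
    linear_combination (Δ ^ (p - 2)) * h5
  set W : Matrix ι (Fin k) F[X] := (Δ ^ (p - 1) • R₀).map (contract p) with hW
  have hWe : W.map (expand F p) = Δ ^ (p - 1) • R₀ := by
    ext1 i j
    rw [hW, map_apply, map_apply]
    exact expand_contract p (hder i j) hp.out.ne_zero
  have hGW : G * W.map (expand F p) = Z * ((Δ ^ (p - 1) * δ) • A) := by
    rw [hWe, Matrix.mul_smul, hR₀, ← Matrix.mul_assoc, hGM, Matrix.smul_mul, smul_smul,
      Matrix.mul_smul]
  have hKdet : ((Δ ^ (p - 1) * δ) • A).det ≠ 0 := by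
    rw [det_smul, hA, det_adjugate]
    exact mul_ne_zero (pow_ne_zero _ (mul_ne_zero (pow_ne_zero _ hI) hdet)) (pow_ne_zero _ hI)
  refine ⟨W, (Δ ^ (p - 1) * δ) • A, ?_, hKdet, hGW⟩
  have h5 : FullRank (W.map (expand F p)) := by
    apply fullRank_of_mul (M := G)
    rw [hGW]
    exact fullRank_mul_right hZ hKdet
  obtain ⟨J, hJ⟩ := h5
  refine ⟨J, ?_⟩
  rw [minor_map_expand] at hJ
  intro h
  rw [h, map_zero] at hJ
  exact hJ rfl

end Pool.Agent.Work.MP_5e5ff1_ag.T
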