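import Mathlib
import Pool.Agent.Work.MP_5e5ff1_ag.Bd.B01
import Pool.Agent.Work.MP_5e5ff1_ag.T.Par
import Pool.Agent.Work.MP_5e5ff1_ag.T.Sub

/-! Transfer of polynomial identities, degrees and root multiplicities to an ultraproduct. -/

open Filter Polynomial Matrix

set_option linter.unusedSectionVars false

namespace Pool.Agent.Work.MP_5e5ff1_ag.T

section los

variable {k : ℕ → Type} [∀ n, Field (k n)] {M : Type} [Field M]

/-- `π` is the projection of a sequence of fields to its ultraproduct -/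
def IsUltra (π : (∀ n, k n) →+* M) : Prop :=
  Function.Surjective π ∧ ∀ x, π x = 0 ↔ ∀ᶠ n in (hyperfilter ℕ : Filter ℕ), x n = 0

/-- the `n`-th component of a polynomial -/
noncomputable def comp (n : ℕ) (q : (∀ n, k n)[X]) : (k n)[X] := q.map (Pi.evalRingHom k n)

lemma coeff_comp (n : ℕ) (q : (∀ n, k n)[X]) (i : ℕ) : (comp n q).coeff i = q.coeff i n := by
  rw [comp, coeff_map]; rfl

variable {π : (∀ n, k n) →+* M}

lemma IsUltra.ne_zero (hπ : IsUltra π) {x : ∀ n, k n} :
    π x ≠ 0 ↔ ∀ᶠ n in (hyperfilter ℕ : Filter ℕ), x n ≠ 0 := by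
  rw [Ne, hπ.2, Ultrafilter.eventually_not]

lemma IsUltra.poly_zero (hπ : IsUltra π) (q : (∀ n, k n)[X]) :
    q.map π = 0 ↔ ∀ᶠ n in (hyperfilter ℕ : Filter ℕ), comp n q = 0 := by
  constructor
  · intro h
    have h1 : ∀ i ∈ q.support, ∀ᶠ n in (hyperfilter ℕ : Filter ℕ), q.coeff i n = 0 := by
      intro i _
      rw [← hπ.2, ← coeff_map, h, coeff_zero]
    have h2 := (Filter.eventually_all_finset q.support).mpr h1
    filter_upwards [h2] with n hn
    ext i
    rw [coeff_comp, coeff_zero]
    by_cases hi : i ∈ q.support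
    · exact hn i hi
    · rw [notMem_support_iff.mp hi]; rfl
  · intro h
    ext i
    rw [coeff_map, coeff_zero, hπ.2]
    filter_upwards [h] with n hn
    rw [← coeff_comp, hn, coeff_zero]

lemma IsUltra.poly_ne_zero (hπ : IsUltra π) (q : (∀ n, k n)[X]) :
    q.map π ≠ 0 ↔ ∀ᶠ n in (hyperfilter ℕ : Filter ℕ), comp n q ≠ 0 := by
  rw [Ne, hπ.poly_zero, Ultrafilter.eventually_not]

lemma IsUltra.natDegree (hπ : IsUltra π) (q : (∀ n, k n)[X]) :
    ∀ᶠ n in (hyperfilter ℕ : Filter ℕ), (comp n q).natDegree = (q.map π).natDegree := by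
  by_cases h0 : q.map π = 0
  · filter_upwards [(hπ.poly_zero q).mp h0] with n hn
    rw [hn, h0, natDegree_zero, natDegree_zero]
  · set D := (q.map π).natDegree with hD
    have h1 : ∀ i ∈ q.support, ∀ᶠ n in (hyperfilter ℕ : Filter ℕ), D < i → q.coeff i n = 0 := by
      intro i _
      by_cases hi : D < i
      · have : π (q.coeff i) = 0 := by rw [← coeff_map, coeff_eq_zero_of_natDegree_lt hi]
        filter_upwards [(hπ.2 _).mp this] with n hn _
        exact hn
      · exact Eventually.of_forall (fun n h => absurd h hi)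
    have h2 := (Filter.eventually_all_finset q.support).mpr h1
    have h3 : π (q.coeff D) ≠ 0 := by
      rw [← coeff_map]
      exact leadingCoeff_ne_zero.mpr h0
    filter_upwards [h2, hπ.ne_zero.mp h3] with n hn hn'
    apply le_antisymm
    · rw [natDegree_le_iff_coeff_eq_zero]
      intro i hi
      rw [coeff_comp]
      by_cases hs : i ∈ q.support
      · exact hn i hs hi
      · rw [notMem_support_iff.mp hs]; rfl
    · apply le_natDegree_of_ne_zero
      rw [coeff_comp]
      exact hn'

lemma eval_comp (n : ℕ) (q : (∀ n, k n)[X]) (a : ∀ n, k n) :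
    (comp n q).eval (a n) = (q.eval a) n := by
  rw [comp, eval_map]
  have := eval₂_at_apply (p := q) (Pi.evalRingHom k n) a
  simpa using this

lemma IsUltra.rootMultiplicity (hπ : IsUltra π) (q : (∀ n, k n)[X]) (hq : q.map π ≠ 0)
    (a : ∀ n, k n) :
    ∀ᶠ n in (hyperfilter ℕ : Filter ℕ),
      (comp n q).rootMultiplicity (a n) = (q.map π).rootMultiplicity (π a) := by
  obtain ⟨q₁, hq₁, hnd⟩ := exists_eq_pow_rootMultiplicity_mul_and_not_dvd (q.map π) hq (π a)
  set e := (q.map π).rootMultiplicity (π a) with he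
  obtain ⟨Q, hQ⟩ := Polynomial.map_surjective π hπ.1 q₁
  have h1 : (q - (X - C a) ^ e * Q).map π = 0 := by
    rw [Polynomial.map_sub, Polynomial.map_mul, Polynomial.map_pow, Polynomial.map_sub,
      Polynomial.map_X, Polynomial.map_C, hQ, ← hq₁, sub_self]
  have h2 : π (Q.eval a) ≠ 0 := by
    rw [dvd_iff_isRoot, IsRoot.def] at hnd
    intro h
    apply hnd
    rw [← hQ, eval_map, eval₂_at_apply, h]
  filter_upwards [(hπ.poly_zero _).mp h1, hπ.ne_zero.mp h2] with n hn hn'
  have h3 : comp n q = (X - C (a n)) ^ e * comp n Q := by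
    have h4 : comp n (q - (X - C a) ^ e * Q) = comp n q - (X - C (a n)) ^ e * comp n Q := by
      simp only [comp, Polynomial.map_sub, Polynomial.map_mul, Polynomial.map_pow,
        Polynomial.map_X, Polynomial.map_C, Pi.evalRingHom_apply]
    rw [h4] at hn
    exact sub_eq_zero.mp hn
  have h5 : (comp n Q).eval (a n) ≠ 0 := by
    rw [eval_comp]; exact hn'
  have h7 : comp n Q ≠ 0 := by
    intro h; rw [h] at h5; simp at h5
  rw [h3, rootMultiplicity_mul (mul_ne_zero (pow_ne_zero _ (X_sub_C_ne_zero _)) h7),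
    rootMultiplicity_X_sub_C_pow, rootMultiplicity_eq_zero h5, add_zero]

/-! polynomial matrices -/

noncomputable def mcomp {s t : Type*} (n : ℕ) (A : Matrix s t (∀ n, k n)[X]) :
    Matrix s t (k n)[X] := A.map (comp n)

noncomputable def mlim {s t : Type*} (π : (∀ n, k n) →+* M)
    (A : Matrix s t (∀ n, k n)[X]) : Matrix s t M[X] :=
  A.map (Polynomial.map π)

lemma mlim_eq_iff (hπ : IsUltra π) {s t : Type*} [Finite s] [Finite t]
    (A B : Matrix s t (∀ n, k n)[X]) :
    mlim π A = mlim π B ↔ ∀ᶠ n in (hyperfilter ℕ : Filter ℕ), mcomp n A = mcomp n B := by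
  have key : ∀ i j, (mlim π A i j = mlim π B i j ↔
      ∀ᶠ n in (hyperfilter ℕ : Filter ℕ), mcomp n A i j = mcomp n B i j) := by
    intro i j
    have h1 : mlim π A i j = mlim π B i j ↔ (A i j - B i j).map π = 0 := by
      rw [Polynomial.map_sub, sub_eq_zero]; rfl
    rw [h1, hπ.poly_zero]
    apply eventually_congr
    apply Eventually.of_forall
    intro n
    have h2 : comp n (A i j - B i j) = mcomp n A i j - mcomp n B i j := by
      simp only [comp, mcomp, map_apply, Polynomial.map_sub]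
    rw [h2, sub_eq_zero]
  constructor
  · intro h
    have h1 : ∀ᶠ n in (hyperfilter ℕ : Filter ℕ), ∀ i j, mcomp n A i j = mcomp n B i j := by
      rw [eventually_all]
      intro i
      rw [eventually_all]
      intro j
      exact (key i j).mp (by rw [h])
    filter_upwards [h1] with n hn
    ext1 i j
    exact hn i j
  · intro h
    ext1 i j
    rw [key]
    filter_upwards [h] with n hn
    rw [hn]

lemma mcomp_mul {s t u : Type*} [Fintype t] (n : ℕ) (A : Matrix s t (∀ n, k n)[X])
    (B : Matrix t u (∀ n, k n)[X]) : mcomp n (A * B) = mcomp n A * mcomp n B := by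
  ext1 i j
  simp only [mcomp, map_apply, mul_apply, comp, Polynomial.map_sum, Polynomial.map_mul]

lemma mlim_mul {s t u : Type*} [Fintype t] (A : Matrix s t (∀ n, k n)[X])
    (B : Matrix t u (∀ n, k n)[X]) : mlim π (A * B) = mlim π A * mlim π B := by
  ext1 i j
  simp only [mlim, map_apply, mul_apply, Polynomial.map_sum, Polynomial.map_mul]

lemma mcomp_one {s : Type*} [DecidableEq s] (n : ℕ) :
    mcomp n (1 : Matrix s s (∀ n, k n)[X]) = 1 := by
  ext1 i j
  rw [mcomp, map_apply, Matrix.one_apply, Matrix.one_apply, comp]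
  split_ifs <;> simp

lemma mlim_one {s : Type*} [DecidableEq s] :
    mlim π (1 : Matrix s s (∀ n, k n)[X]) = 1 := by
  ext1 i j
  rw [mlim, map_apply, Matrix.one_apply, Matrix.one_apply]
  split_ifs <;> simp

lemma mcomp_smul {s t : Type*} (n : ℕ) (q : (∀ n, k n)[X]) (A : Matrix s t (∀ n, k n)[X]) :
    mcomp n (q • A) = comp n q • mcomp n A := by
  ext1 i j
  simp only [mcomp, map_apply, Matrix.smul_apply, smul_eq_mul, comp, Polynomial.map_mul]

lemma mlim_smul {s t : Type*} (q : (∀ n, k n)[X]) (A : Matrix s t (∀ n, k n)[X]) :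
    mlim π (q • A) = q.map π • mlim π A := by
  ext1 i j
  simp only [mlim, map_apply, Matrix.smul_apply, smul_eq_mul, Polynomial.map_mul]

lemma mcomp_submatrix {s t u : Type*} (n : ℕ) (A : Matrix s t (∀ n, k n)[X]) (I : u → s) :
    mcomp n (A.submatrix I id) = (mcomp n A).submatrix I id := rfl

lemma mlim_submatrix {s t u : Type*} (A : Matrix s t (∀ n, k n)[X]) (I : u → s) :
    mlim π (A.submatrix I id) = (mlim π A).submatrix I id := rfl

lemma comp_minor {s : Type*} {t : ℕ} (n : ℕ) (A : Matrix s (Fin t) (∀ n, k n)[X])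
    (I : Fin t → s) :
    ((mcomp n A).submatrix I id).det = comp n (A.submatrix I id).det := by
  exact (RingHom.map_det (mapRingHom (Pi.evalRingHom k n)) (A.submatrix I id)).symm

lemma lim_minor {s : Type*} {t : ℕ} (A : Matrix s (Fin t) (∀ n, k n)[X]) (I : Fin t → s) :
    ((mlim π A).submatrix I id).det = (A.submatrix I id).det.map π := by
  exact (RingHom.map_det (mapRingHom π) (A.submatrix I id)).symm

lemma exists_lift {s t : Type*} (hπ : IsUltra π) (W : Matrix s t M[X]) :
    ∃ A : Matrix s t (∀ n, k n)[X], mlim π A = W := by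
  have : ∀ i j, ∃ q : (∀ n, k n)[X], q.map π = W i j := fun i j =>
    Polynomial.map_surjective π hπ.1 (W i j)
  choose A hA using this
  exact ⟨Matrix.of A, by ext1 i j; exact hA i j⟩

/-! constant matrices -/

def mc {s t : Type*} (n : ℕ) (A : Matrix s t (∀ n, k n)) : Matrix s t (k n) :=
  A.map (fun x => x n)

lemma mc_mul {s t u : Type*} [Fintype t] (n : ℕ) (A : Matrix s t (∀ n, k n))
    (B : Matrix t u (∀ n, k n)) : mc n (A * B) = mc n A * mc n B := by
  ext1 i j
  simp only [mc, map_apply, mul_apply, Finset.sum_apply, Pi.mul_apply]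

lemma ml_mul {s t u : Type*} [Fintype t] (A : Matrix s t (∀ n, k n))
    (B : Matrix t u (∀ n, k n)) : (A * B).map π = A.map π * B.map π := by
  ext1 i j
  simp only [map_apply, mul_apply, map_sum, map_mul]

lemma ml_eq_iff (hπ : IsUltra π) {s t : Type*} [Finite s] [Finite t]
    (A B : Matrix s t (∀ n, k n)) :
    A.map π = B.map π ↔ ∀ᶠ n in (hyperfilter ℕ : Filter ℕ), mc n A = mc n B := by
  have key : ∀ i j, (A.map π i j = B.map π i j ↔
      ∀ᶠ n in (hyperfilter ℕ : Filter ℕ), mc n A i j = mc n B i j) := by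
    intro i j
    rw [map_apply, map_apply, ← sub_eq_zero, ← map_sub, hπ.2]
    apply eventually_congr
    apply Eventually.of_forall
    intro n
    rw [Pi.sub_apply, sub_eq_zero]
    rfl
  constructor
  · intro h
    have h1 : ∀ᶠ n in (hyperfilter ℕ : Filter ℕ), ∀ i j, mc n A i j = mc n B i j := by
      rw [eventually_all]
      intro i
      rw [eventually_all]
      intro j
      exact (key i j).mp (by rw [h])
    filter_upwards [h1] with n hn
    ext1 i j
    exact hn i j
  · intro h
    ext1 i j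
    rw [key]
    filter_upwards [h] with n hn
    rw [hn]

lemma mc_eval {s t : Type*} (n : ℕ) (A : Matrix s t (∀ n, k n)[X]) (a : ∀ n, k n) :
    mc n (A.map (eval a)) = (mcomp n A).map (eval (a n)) := by
  ext1 i j
  simp only [mc, mcomp, map_apply]
  exact (eval_comp n (A i j) a).symm

lemma ml_eval {s t : Type*} (A : Matrix s t (∀ n, k n)[X]) (a : ∀ n, k n) :
    (A.map (eval a)).map π = (mlim π A).map (eval (π a)) := by
  ext1 i j
  simp only [mlim, map_apply, eval_map, eval₂_at_apply]

/-- a matrix with constant entries -/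
def glue {s t : Type*} (g : ∀ n, Matrix s t (k n)) : Matrix s t (∀ n, k n) :=
  Matrix.of fun i j n => g n i j

lemma mc_glue {s t : Type*} (n : ℕ) (g : ∀ n, Matrix s t (k n)) : mc n (glue g) = g n := rfl

lemma mcomp_map_C {s t : Type*} (n : ℕ) (g : ∀ n, Matrix s t (k n)) :
    mcomp n ((glue g).map C) = (g n).map C := by
  ext1 i j
  simp only [mcomp, map_apply, comp, Polynomial.map_C]
  rfl

lemma mlim_map_C {s t : Type*} (g : Matrix s t (∀ n, k n)) :
    mlim π (g.map C) = (g.map π).map C := by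
  ext1 i j
  simp only [mlim, map_apply, Polynomial.map_C]

lemma glue_det_ne {s : Type*} [Fintype s] [DecidableEq s] (hπ : IsUltra π)
    (g : ∀ n, Matrix s s (k n))
    (hg : ∀ n, (g n).det ≠ 0) : ((glue g).map π).det ≠ 0 := by
  have h1 : ((glue g).map π).det = π (glue g).det := (RingHom.map_det π (glue g)).symm
  rw [h1, hπ.ne_zero]
  apply Eventually.of_forall
  intro n
  have h2 : (glue g).det n = (g n).det := RingHom.map_det (Pi.evalRingHom k n) (glue g)
  rw [h2]
  exact hg n

lemma exists_glue_poly {B : ℕ} (q : ∀ n, (k n)[X]) (hq : ∀ n, (q n).natDegree ≤ B) :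
    ∃ Q : (∀ n, k n)[X], ∀ n, comp n Q = q n := by
  refine ⟨∑ l ∈ Finset.range (B + 1), C (fun n => (q n).coeff l) * X ^ l, fun n => ?_⟩
  rw [comp, Polynomial.map_sum]
  conv_rhs => rw [(q n).as_sum_range' (B + 1) (Nat.lt_succ_of_le (hq n))]
  apply Finset.sum_congr rfl
  intro l _
  rw [Polynomial.map_mul, Polynomial.map_C, Polynomial.map_pow, Polynomial.map_X,
    ← C_mul_X_pow_eq_monomial]
  rfl

lemma exists_glue_matrix {s t : Type*} {B : ℕ} (Z : ∀ n, Matrix s t (k n)[X])
    (hZ : ∀ n i j, (Z n i j).natDegree ≤ B) :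
    ∃ A : Matrix s t (∀ n, k n)[X], ∀ n, mcomp n A = Z n := by
  have h1 : ∀ i j, ∃ Q : (∀ n, k n)[X], ∀ n, comp n Q = Z n i j := fun i j =>
    exists_glue_poly (fun n => Z n i j) (fun n => hZ n i j)
  choose Q hQ using h1
  exact ⟨Matrix.of Q, fun n => by ext1 i j; exact hQ i j n⟩

section iota

variable {ι : Type*} [Fintype ι] [DecidableEq ι]

lemma IsUltra.fullRank (hπ : IsUltra π) {t : ℕ} (A : Matrix ι (Fin t) (∀ n, k n)[X])
    (h : FullRank (mlim π A)) : ∀ᶠ n in (hyperfilter ℕ : Filter ℕ), FullRank (mcomp n A) := by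
  obtain ⟨I, hI⟩ := h
  rw [lim_minor, hπ.poly_ne_zero] at hI
  filter_upwards [hI] with n hn
  exact ⟨I, by rw [comp_minor]; exact hn⟩

lemma IsUltra.ordPart (hπ : IsUltra π) {t : ℕ} (g₀ g₁ : ∀ n, Matrix ι ι (k n))
    (A : Matrix ι (Fin t) (∀ n, k n)[X]) (I : Fin 3 → Fin t → ι) :
    (∀ᶠ n in (hyperfilter ℕ : Filter ℕ), (ParNonzero (g₀ n) (g₁ n) (mcomp n A) I ↔
      ParNonzero ((glue g₀).map π) ((glue g₁).map π) (mlim π A) I)) ∧
    (ParNonzero ((glue g₀).map π) ((glue g₁).map π) (mlim π A) I →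
      ∀ᶠ n in (hyperfilter ℕ : Filter ℕ), T.ordPart (g₀ n) (g₁ n) (mcomp n A) I
        = T.ordPart ((glue g₀).map π) ((glue g₁).map π) (mlim π A) I) := by
  have key : ∀ (q : (∀ n, k n)[X]), ∀ᶠ n in (hyperfilter ℕ : Filter ℕ), (comp n q ≠ 0 ↔ q.map π ≠ 0) := by
    intro q
    by_cases h : q.map π = 0
    · filter_upwards [(hπ.poly_zero q).mp h] with n hn
      simp [hn, h]
    · filter_upwards [(hπ.poly_ne_zero q).mp h] with n hn
      simp [hn, h]
  have e1 : ∀ (g : ∀ n, Matrix ι ι (k n)) n, (g n).map C * mcomp n A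
      = mcomp n ((glue g).map C * A) := by
    intro g n
    rw [mcomp_mul, mcomp_map_C]
  have e2 : ∀ (g : ∀ n, Matrix ι ι (k n)), ((glue g).map π).map C * mlim π A
      = mlim π ((glue g).map C * A) := by
    intro g
    rw [mlim_mul, mlim_map_C]
  constructor
  · unfold ParNonzero
    simp only [e1, e2, comp_minor, lim_minor]
    filter_upwards [key (((glue g₀).map C * A).submatrix (I 0) id).det,
      key (((glue g₁).map C * A).submatrix (I 1) id).det, key (A.submatrix (I 2) id).det]
      with n h0 h1 h2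
    rw [h0, h1, h2]
  · intro h
    unfold ParNonzero at h
    unfold T.ordPart
    simp only [e1, e2, comp_minor, lim_minor] at h ⊢
    filter_upwards [hπ.rootMultiplicity _ h.1 0, hπ.rootMultiplicity _ h.2.1 1,
      hπ.natDegree (A.submatrix (I 2) id).det] with n h0 h1 h2
    rw [map_zero] at h0
    rw [map_one] at h1
    simp only [Pi.zero_apply] at h0
    simp only [Pi.one_apply] at h1
    rw [h0, h1, h2]

lemma mcomp_nab (n : ℕ) {t : ℕ} (b c : ∀ n, Matrix ι ι (k n))
    (A : Matrix ι (Fin t) (∀ n, k n)[X]) :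
    mcomp n (nab (Lm (glue b) (glue c)) A) = nab (Lm (b n) (c n)) (mcomp n A) := by
  have h1 := nab_map (Pi.evalRingHom k n) (Lm (glue b) (glue c)) A
  have h2 : (Lm (glue b) (glue c)).map (Polynomial.map (Pi.evalRingHom k n))
      = Lm (b n) (c n) := by
    ext1 i j
    simp only [Lm, map_apply, Matrix.add_apply, Matrix.smul_apply, smul_eq_mul,
      Polynomial.map_add, Polynomial.map_mul, Polynomial.map_sub, Polynomial.map_X,
      Polynomial.map_one, Polynomial.map_C]
    rfl
  rw [h2] at h1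
  exact h1

lemma mlim_nab {t : ℕ} (b c : Matrix ι ι (∀ n, k n))
    (A : Matrix ι (Fin t) (∀ n, k n)[X]) :
    mlim π (nab (Lm b c) A) = nab (Lm (b.map π) (c.map π)) (mlim π A) := by
  have h1 := nab_map π (Lm b c) A
  have h2 : (Lm b c).map (Polynomial.map π) = Lm (b.map π) (c.map π) := by
    ext1 i j
    simp only [Lm, map_apply, Matrix.add_apply, Matrix.smul_apply, smul_eq_mul,
      Polynomial.map_add, Polynomial.map_mul, Polynomial.map_sub, Polynomial.map_X,
      Polynomial.map_one, Polynomial.map_C]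
  rw [h2] at h1
  exact h1

end iota

end los

end Pool.Agent.Work.MP_5e5ff1_ag.T
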